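import Pool.Agent.Lens.Main2

/-!
# MP_1a5fbe_al, Q1, negated form

Over every algebraically closed field there is a weighted projective line with `χ < 0` such that
the braid group action by mutations on the complete exceptional sequences in the stable category of
vector bundles is not transitive.
-/

namespace Pool.Agent.Results.MP_1a5fbe_al.NotTransitive

universe w v u

theorem result (k : Type u) [Field k] [IsAlgClosed k] : Lens.NotTransitive.{w, v, u} k :=
  Lens.notTransitive k

end Pool.Agent.Results.MP_1a5fbe_al.NotTransitive
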